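import Pool.Agent.H31.CN.T5

/-!
# Ideals with equivalent forms are in the same class
-/

set_option autoImplicit false

open NumberField
open scoped nonZeroDivisors

namespace Pool.Agent.H46.CN

open Pool.Agent.H31.CN

/-- an oriented pair of complex numbers is determined by its norm form, up to a factor -/
lemma pair_eq (a b a' b' : ℂ) (N N' q1 q2 q3 : ℝ) (hN : 0 < N) (hN' : 0 < N') (hq : 0 < q1)
    (h : 0 < ((starRingEnd ℂ) a * b).im) (h' : 0 < ((starRingEnd ℂ) a' * b').im)
    (h1 : Complex.normSq a = N * q1) (h2 : Complex.normSq b = N * q2)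
    (h3 : Complex.normSq (a + b) = N * q3) (h1' : Complex.normSq a' = N' * q1)
    (h2' : Complex.normSq b' = N' * q2) (h3' : Complex.normSq (a' + b') = N' * q3) :
    a * b' = a' * b := by
  obtain ⟨x, y⟩ := a
  obtain ⟨z, w⟩ := b
  obtain ⟨x', y'⟩ := a'
  obtain ⟨z', w'⟩ := b'
  simp only [Complex.mul_im, Complex.conj_re, Complex.conj_im, Complex.normSq_apply,
    Complex.add_re, Complex.add_im] at *
  have hr : x * z + y * w = N * ((q3 - q1 - q2) / 2) := by linarith
  have hr' : x' * z' + y' * w' = N' * ((q3 - q1 - q2) / 2) := by linarith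
  have hs : (x * w + -y * z) ^ 2 = N ^ 2 * (q1 * q2 - ((q3 - q1 - q2) / 2) ^ 2) := by
    have e : (x * w + -y * z) ^ 2 = (x * x + y * y) * (z * z + w * w) - (x * z + y * w) ^ 2 := by
      ring
    rw [e, hr, h1, h2]
    ring
  have hs' : (x' * w' + -y' * z') ^ 2 = N' ^ 2 * (q1 * q2 - ((q3 - q1 - q2) / 2) ^ 2) := by
    have e : (x' * w' + -y' * z') ^ 2 =
        (x' * x' + y' * y') * (z' * z' + w' * w') - (x' * z' + y' * w') ^ 2 := by
      ring
    rw [e, hr', h1', h2']
    ring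
  have hi : N' * (x * w + -y * z) = N * (x' * w' + -y' * z') := by
    have e : (N' * (x * w + -y * z)) ^ 2 = (N * (x' * w' + -y' * z')) ^ 2 := by
      rw [mul_pow, mul_pow, hs, hs']
      ring
    exact (pow_left_inj₀ (mul_pos hN' h).le (mul_pos hN h').le two_ne_zero).1 e
  have hre : N' * (x * z + y * w) = N * (x' * z' + y' * w') := by
    rw [hr, hr']
    ring
  have hNN : N * N' * q1 ≠ 0 := by positivity
  apply Complex.ext
  · simp only [Complex.mul_re]
    have e : N * N' * q1 * (x * z' - y * w') = N * N' * q1 * (x' * z - y' * w) := by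
      have e1 : N * N' * q1 * (x * z' - y * w') = N * ((x' * x' + y' * y') * (x * z' - y * w')) := by
        rw [h1']
        ring
      have e2 : N * N' * q1 * (x' * z - y' * w) = N' * ((x * x + y * y) * (x' * z - y' * w)) := by
        rw [h1]
        ring
      rw [e1, e2]
      linear_combination (x * y' + y * x') * hi - (x * x' - y * y') * hre
    exact mul_left_cancel₀ hNN e
  · simp only [Complex.mul_im]
    have e : N * N' * q1 * (x * w' + y * z') = N * N' * q1 * (x' * w + y' * z) := by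
      have e1 : N * N' * q1 * (x * w' + y * z') = N * ((x' * x' + y' * y') * (x * w' + y * z')) := by
        rw [h1']
        ring
      have e2 : N * N' * q1 * (x' * w + y' * z) = N' * ((x * x + y * y) * (x' * w + y' * z)) := by
        rw [h1]
        ring
      rw [e1, e2]
      linear_combination -(x * x' - y * y') * hi - (x * y' + y * x') * hre
    exact mul_left_cancel₀ hNN e

/-- the transformed basis -/
lemma OB_act (K : Type) [Field K] [NumberField K] (σ : K →+* ℂ) (I : Ideal (𝓞 K))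
    (α β : 𝓞 K) (Q : QF) (g : Matrix.SpecialLinearGroup (Fin 2) ℤ) (h : OB K σ I α β Q) :
    OB K σ I ((g 0 0 : 𝓞 K) * α + (g 1 0 : 𝓞 K) * β) ((g 0 1 : 𝓞 K) * α + (g 1 1 : 𝓞 K) * β)
      (act Q g) := by
  have hdet : g 0 0 * g 1 1 - g 0 1 * g 1 0 = 1 := by
    have := g.det_coe
    rwa [Matrix.det_fin_two] at this
  have hcomb : ∀ v : ℤ × ℤ, (v.1 : 𝓞 K) * ((g 0 0 : 𝓞 K) * α + (g 1 0 : 𝓞 K) * β) +
      (v.2 : 𝓞 K) * ((g 0 1 : 𝓞 K) * α + (g 1 1 : 𝓞 K) * β) =
      ((gv g v).1 : 𝓞 K) * α + ((gv g v).2 : 𝓞 K) * β := by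
    intro v
    simp only [gv]
    push_cast
    ring
  have hinv : ∀ v : ℤ × ℤ, gv g (g 1 1 * v.1 - g 0 1 * v.2, g 0 0 * v.2 - g 1 0 * v.1) = v := by
    intro v
    simp only [gv]
    apply Prod.ext
    · linear_combination v.1 * hdet
    · linear_combination v.2 * hdet
  refine ⟨fun γ => ?_, fun v hv => ?_, fun v => ?_, ?_⟩
  · rw [h.mem]
    constructor
    · rintro ⟨v, rfl⟩
      exact ⟨_, by rw [hcomb, hinv v]⟩
    · rintro ⟨v, rfl⟩
      exact ⟨gv g v, hcomb v⟩
  · rw [hcomb] at hv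
    have h0 := h.inj _ hv
    have h1 : g 0 0 * v.1 + g 0 1 * v.2 = 0 := congrArg Prod.fst h0
    have h2 : g 1 0 * v.1 + g 1 1 * v.2 = 0 := congrArg Prod.snd h0
    apply Prod.ext
    · show v.1 = 0
      linear_combination (-v.1) * hdet + g 1 1 * h1 - g 0 1 * h2
    · show v.2 = 0
      linear_combination (-v.2) * hdet + g 0 0 * h2 - g 1 0 * h1
  · rw [hcomb, h.nrm]
    congr 2
    simp only [act, val, gv]
    ring
  · have ho := h.ori
    have e : ((starRingEnd ℂ) (σ (((g 0 0 : 𝓞 K) * α + (g 1 0 : 𝓞 K) * β : 𝓞 K) : K)) *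
        σ (((g 0 1 : 𝓞 K) * α + (g 1 1 : 𝓞 K) * β : 𝓞 K) : K)).im =
        ((g 0 0 * g 1 1 - g 0 1 * g 1 0 : ℤ) : ℝ) *
          ((starRingEnd ℂ) (σ (α : K)) * σ (β : K)).im := by
      simp only [map_add, map_mul, map_intCast]
      generalize σ (α : K) = a
      generalize σ (β : K) = b
      simp only [Complex.mul_im, Complex.add_re, Complex.add_im, Complex.mul_re, Complex.conj_re,
        Complex.conj_im, Complex.intCast_re, Complex.intCast_im]
      push_cast
      ring
    rw [e, hdet]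
    simpa using ho

/-- (OB2) ideals with equivalent forms are in the same class. -/
theorem pf_OB2 : T_OB2 := by
  intro K _ _ σ I J α β α' β' Q Q' g h h' hQ
  subst hQ
  have h2 := OB_act K σ I α β Q g h
  generalize (g 0 0 : 𝓞 K) * α + (g 1 0 : 𝓞 K) * β = α2 at h2
  generalize (g 0 1 : 𝓞 K) * α + (g 1 1 : 𝓞 K) * β = β2 at h2
  generalize act Q g = Q' at h2 h'
  have hI : 0 < (Ideal.absNorm (I : Ideal (𝓞 K)) : ℝ) := by
    exact_mod_cast Ideal.absNorm_pos_of_nonZeroDivisors I
  have hJ : 0 < (Ideal.absNorm (J : Ideal (𝓞 K)) : ℝ) := by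
    exact_mod_cast Ideal.absNorm_pos_of_nonZeroDivisors J
  have hα2 : α2 ≠ 0 := by
    intro h0
    have := h2.inj (1, 0) (by simp [h0])
    simp at this
  have hα' : α' ≠ 0 := by
    intro h0
    have := h'.inj (1, 0) (by simp [h0])
    simp at this
  have n1 := h2.nrm (1, 0)
  have n2 := h2.nrm (0, 1)
  have n3 := h2.nrm (1, 1)
  have n1' := h'.nrm (1, 0)
  have n2' := h'.nrm (0, 1)
  have n3' := h'.nrm (1, 1)
  simp only [Int.cast_one, Int.cast_zero, one_mul, zero_mul, add_zero, zero_add, map_add] at n1 n2 n3 n1' n2' n3'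
  have hq : 0 < (val Q' (1, 0) : ℝ) := by
    have hpos : 0 < Complex.normSq (σ (α2 : K)) := by
      rw [Complex.normSq_pos]
      intro h0
      apply hα2
      have := (map_eq_zero σ).1 h0
      exact_mod_cast this
    rw [n1] at hpos
    exact (pos_iff_pos_of_mul_pos hpos).1 hI
  have key := pair_eq _ _ _ _ _ _ _ _ _ hI hJ hq h2.ori h'.ori n1 n2 n3 n1' n2' n3'
  have key2 : α2 * β' = α' * β2 := by
    have e : σ (algebraMap (𝓞 K) K (α2 * β')) = σ (algebraMap (𝓞 K) K (α' * β2)) := by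
      simpa only [map_mul] using key
    exact FaithfulSMul.algebraMap_injective (𝓞 K) K (σ.injective e)
  rw [ClassGroup.mk0_eq_mk0_iff]
  refine ⟨α', α2, hα', hα2, ?_⟩
  rw [Ideal.span_singleton_mul_eq_span_singleton_mul]
  constructor
  · intro z hz
    obtain ⟨v, rfl⟩ := (h2.mem z).1 hz
    refine ⟨(v.1 : 𝓞 K) * α' + (v.2 : 𝓞 K) * β', (h'.mem _).2 ⟨v, rfl⟩, ?_⟩
    linear_combination (-(v.2 : 𝓞 K)) * key2
  · intro z hz
    obtain ⟨v, rfl⟩ := (h'.mem z).1 hz
    refine ⟨(v.1 : 𝓞 K) * α2 + (v.2 : 𝓞 K) * β2, (h2.mem _).2 ⟨v, rfl⟩, ?_⟩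
    linear_combination (-(v.2 : 𝓞 K)) * key2

end Pool.Agent.H46.CN
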