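import Pool.Agent.H31.CN.T5

/-!
# Norms in an imaginary quadratic field with a given complex embedding
-/

set_option autoImplicit false

open NumberField
open scoped nonZeroDivisors

namespace Pool.Agent.H46.CN

open Pool.Agent.H31.CN

/-- the norm is the square of the absolute value -/
lemma norm_eq (K : Type) [Field K] [NumberField K] (σ : K →+* ℂ)
    (hfin : Module.finrank ℚ K = 2) (hz : ∃ z : K, (σ z).im ≠ 0) (x : K) :
    ((Algebra.norm ℚ x : ℚ) : ℝ) = Complex.normSq (σ x) := by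
  classical
  obtain ⟨z, hz⟩ := hz
  let s : K →ₐ[ℚ] ℂ := σ.toRatAlgHom
  let t : K →ₐ[ℚ] ℂ := ((starRingEnd ℂ).comp σ).toRatAlgHom
  have hst : s ≠ t := by
    intro h
    have h1 : s z = t z := by rw [h]
    have h2 : σ z = (starRingEnd ℂ) (σ z) := h1
    exact hz (Complex.conj_eq_iff_im.1 h2.symm)
  have hcard : Fintype.card (K →ₐ[ℚ] ℂ) = 2 := by
    rw [AlgHom.card, hfin]
  have huniv : (Finset.univ : Finset (K →ₐ[ℚ] ℂ)) = {s, t} := by
    symm
    apply Finset.eq_univ_of_card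
    rw [Finset.card_pair hst, hcard]
  have h := Algebra.norm_eq_prod_embeddings ℚ ℂ x
  rw [huniv, Finset.prod_pair hst] at h
  have h3 : s x * t x = ((Complex.normSq (σ x) : ℝ) : ℂ) := Complex.mul_conj (σ x)
  rw [h3] at h
  have h4 : (((Algebra.norm ℚ x : ℚ) : ℝ) : ℂ) = ((Complex.normSq (σ x) : ℝ) : ℂ) := by
    rw [← h]
    simp
  exact_mod_cast h4

/-- the norm of a principal ideal -/
lemma absNorm_span (K : Type) [Field K] [NumberField K] (σ : K →+* ℂ)
    (hfin : Module.finrank ℚ K = 2) (hz : ∃ z : K, (σ z).im ≠ 0) (x : 𝓞 K) :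
    (Ideal.absNorm (Ideal.span {x}) : ℝ) = Complex.normSq (σ (x : K)) := by
  rw [Ideal.absNorm_span_singleton, ← norm_eq K σ hfin hz]
  have h0 : 0 ≤ ((Algebra.norm ℚ (x : K) : ℚ) : ℝ) := by
    rw [norm_eq K σ hfin hz]
    exact Complex.normSq_nonneg _
  have h1 : ((Algebra.norm ℤ x : ℤ) : ℚ) = Algebra.norm ℚ (x : K) := Algebra.coe_norm_int x
  rw [← h1] at h0 ⊢
  have h2 : (0 : ℤ) ≤ Algebra.norm ℤ x := by exact_mod_cast h0
  have h3 : (((Algebra.norm ℤ x).natAbs : ℤ) : ℝ) = ((Algebra.norm ℤ x : ℤ) : ℝ) := by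
    rw [Int.natAbs_of_nonneg h2]
  rw [Int.cast_natCast] at h3
  rw [h3]
  simp

/-- an oriented basis shows that the embedding is not real -/
lemma OB_im (K : Type) [Field K] [NumberField K] (σ : K →+* ℂ) (I : Ideal (𝓞 K))
    (α β : 𝓞 K) (Q : QF) (h : OB K σ I α β Q) : ∃ z : K, (σ z).im ≠ 0 := by
  by_contra hcon
  push Not at hcon
  have h1 := h.ori
  rw [Complex.mul_im, Complex.conj_im, Complex.conj_re, hcon, hcon] at h1
  simp at h1

/-- the norm of the quotient of a vector -/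
lemma OB_quot (K : Type) [Field K] [NumberField K] (σ : K →+* ℂ)
    (hfin : Module.finrank ℚ K = 2) (I b : (Ideal (𝓞 K))⁰)
    (α β : 𝓞 K) (Q : QF) (h : OB K σ I α β Q) (v : ℤ × ℤ)
    (hb : Ideal.span {(v.1 : 𝓞 K) * α + (v.2 : 𝓞 K) * β} = (b : Ideal (𝓞 K)) * I) :
    (Ideal.absNorm (b : Ideal (𝓞 K)) : ℤ) = val Q v := by
  have h1 := absNorm_span K σ hfin (OB_im K σ I α β Q h) ((v.1 : 𝓞 K) * α + (v.2 : 𝓞 K) * β)
  rw [h.nrm, hb, map_mul] at h1
  have hI : (Ideal.absNorm (I : Ideal (𝓞 K)) : ℝ) ≠ 0 := by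
    exact_mod_cast (Ideal.absNorm_pos_of_nonZeroDivisors I).ne'
  push_cast at h1
  rw [mul_comm] at h1
  have h2 := mul_left_cancel₀ hI h1
  exact_mod_cast h2

end Pool.Agent.H46.CN
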