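import Pool.Agent.H46.CN.NF

/-!
# The vectors of an ideal and the integral ideals of the inverse class
-/

set_option autoImplicit false

open NumberField
open scoped nonZeroDivisors

namespace Pool.Agent.H46.CN

open Pool.Agent.H31.CN

/-- the principal form represents one only at two vectors -/
lemma form_one (c x y : ℤ) (hc : 2 ≤ c) (h : x ^ 2 + x * y + c * y ^ 2 = 1) :
    y = 0 ∧ (x = 1 ∨ x = -1) := by
  have hy : y = 0 := by
    by_contra hy
    have h1 : 1 ≤ y ^ 2 := by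
      have := sq_nonneg y
      have h2 : y ^ 2 ≠ 0 := pow_ne_zero 2 hy
      omega
    have h3 : 4 * x ^ 2 + 4 * (x * y) + y ^ 2 = (2 * x + y) ^ 2 := by ring
    have h4 := sq_nonneg (2 * x + y)
    have h5 : 2 * y ^ 2 ≤ c * y ^ 2 := by
      exact mul_le_mul_of_nonneg_right hc (sq_nonneg y)
    omega
  subst hy
  refine ⟨rfl, ?_⟩
  have h1 : (x - 1) * (x + 1) = 0 := by linear_combination h
  rcases mul_eq_zero.1 h1 with h2 | h2
  · left; omega
  · right; omega

/-- the units are trivial -/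
lemma unit_triv (hOB0 : T_OB0) (D : ℕ) (K : Type) [Field K] [NumberField K] (σ : K →+* ℂ)
    (hD : 3 < D) (hD4 : D % 4 = 3) (hfin : Module.finrank ℚ K = 2)
    (hdis : discr K = -(D : ℤ)) (u : (𝓞 K)ˣ) : (u : 𝓞 K) = 1 ∨ (u : 𝓞 K) = -1 := by
  obtain ⟨α, β, h⟩ := hOB0 D K σ hD hD4 hfin hdis
  have key : ∀ u : (𝓞 K)ˣ, (u : 𝓞 K) = α ∨ (u : 𝓞 K) = -α := by
    intro u
    obtain ⟨v, hv⟩ := (h.mem (u : 𝓞 K)).1 trivial
    have h1 := absNorm_span K σ hfin (OB_im K σ _ α β _ h) (u : 𝓞 K)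
    have h2 := h.nrm v
    rw [← hv, ← h1, Ideal.span_singleton_eq_top.2 u.isUnit, Ideal.absNorm_top] at h2
    have h3 : val (1, 1, ((D : ℤ) + 1) / 4) v = 1 := by
      have h4 : (val (1, 1, ((D : ℤ) + 1) / 4) v : ℝ) = 1 := by
        rw [Nat.cast_one, one_mul] at h2
        exact h2.symm
      exact_mod_cast h4
    simp only [val, one_mul] at h3
    have hc : 2 ≤ ((D : ℤ) + 1) / 4 := by omega
    obtain ⟨h5, h6⟩ := form_one _ _ _ hc h3
    rw [hv, h5]
    rcases h6 with h6 | h6 <;> rw [h6] <;> simp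
  have h1 := key 1
  have h2 := key u
  rw [Units.val_one] at h1
  rcases h1 with h1 | h1 <;> rcases h2 with h2 | h2
  · left; rw [h2, h1]
  · right; rw [h2, h1]
  · right; rw [h2, h1, neg_neg]
  · left; rw [h2, h1]

/-- (OB3) the vectors of an ideal and the integral ideals of the inverse class. -/
theorem pf_OB3 (hOB0 : T_OB0) : T_OB3 := by
  intro D K _ _ σ hD hD4 hfin hdis I α β Q h
  have hI0 : (I : Ideal (𝓞 K)) ≠ 0 := nonZeroDivisors.coe_ne_zero I
  have hne : ∀ v : ℤ × ℤ, v ≠ 0 → (v.1 : 𝓞 K) * α + (v.2 : 𝓞 K) * β ≠ 0 :=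
    fun v hv h0 => hv (h.inj v h0)
  have hex : ∀ v : ℤ × ℤ, ∃ b : (Ideal (𝓞 K))⁰, v ≠ 0 →
      Ideal.span {(v.1 : 𝓞 K) * α + (v.2 : 𝓞 K) * β} = (b : Ideal (𝓞 K)) * I := by
    intro v
    by_cases hv : v = 0
    · exact ⟨1, fun h => absurd hv h⟩
    · have hmem : (v.1 : 𝓞 K) * α + (v.2 : 𝓞 K) * β ∈ (I : Ideal (𝓞 K)) := (h.mem _).2 ⟨v, rfl⟩
      have hdvd : (I : Ideal (𝓞 K)) ∣ Ideal.span {(v.1 : 𝓞 K) * α + (v.2 : 𝓞 K) * β} := by
        rw [Ideal.dvd_span_singleton]
        exact hmem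
      obtain ⟨c, hc⟩ := hdvd
      have hc0 : c ≠ 0 := by
        rintro rfl
        rw [mul_zero] at hc
        exact hne v hv (Ideal.span_singleton_eq_bot.1 hc)
      exact ⟨⟨c, mem_nonZeroDivisors_of_ne_zero hc0⟩, fun _ => by rw [hc, mul_comm]⟩
  choose b hb using hex
  refine ⟨b, hb, fun v hv => ⟨?_, ?_⟩, fun J hJ => ?_, fun v v' hv hv' => ?_⟩
  · rw [eq_inv_iff_mul_eq_one, ← map_mul, ClassGroup.mk0_eq_one_iff]
    refine ⟨⟨(v.1 : 𝓞 K) * α + (v.2 : 𝓞 K) * β, ?_⟩⟩
    rw [Submonoid.coe_mul, ← hb v hv, Ideal.submodule_span_eq]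
  · exact OB_quot K σ hfin I (b v) α β Q h v (hb v hv)
  · rw [eq_inv_iff_mul_eq_one, ← map_mul, ClassGroup.mk0_eq_one_iff] at hJ
    obtain ⟨⟨γ, hγ⟩⟩ := hJ
    have hγ' : (J : Ideal (𝓞 K)) * I = Ideal.span {γ} := by
      rw [← Submonoid.coe_mul, hγ, Ideal.submodule_span_eq]
    have hmem : γ ∈ (I : Ideal (𝓞 K)) := by
      have h1 : γ ∈ (J : Ideal (𝓞 K)) * I := by
        rw [hγ']
        exact Ideal.mem_span_singleton_self γ
      exact Ideal.mul_le_right h1
    obtain ⟨v, hv⟩ := (h.mem γ).1 hmem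
    have hv0 : v ≠ 0 := by
      rintro rfl
      simp only [Prod.fst_zero, Prod.snd_zero, Int.cast_zero, zero_mul, add_zero] at hv
      rw [hv] at hγ'
      have h1 : (J : Ideal (𝓞 K)) * I = 0 := by
        rw [hγ']
        simp
      exact mul_ne_zero (nonZeroDivisors.coe_ne_zero J) hI0 h1
    refine ⟨v, hv0, ?_⟩
    have h2 := hb v hv0
    rw [← hv, ← hγ'] at h2
    exact Subtype.ext (mul_right_cancel₀ hI0 h2.symm)
  · constructor
    · intro hbb
      have h1 := hb v hv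
      rw [hbb, ← hb v' hv', Ideal.span_singleton_eq_span_singleton] at h1
      obtain ⟨u, hu⟩ := h1
      rcases unit_triv hOB0 D K σ hD hD4 hfin hdis u with h2 | h2
      · left
        rw [h2, mul_one] at hu
        have h3 := h.inj (v' - v) (by
          simp only [Prod.fst_sub, Prod.snd_sub]
          push_cast
          linear_combination -hu)
        exact sub_eq_zero.1 h3
      · right
        rw [h2] at hu
        have h3 := h.inj (v' + v) (by
          simp only [Prod.fst_add, Prod.snd_add]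
          push_cast
          linear_combination -hu)
        exact eq_neg_of_add_eq_zero_left h3
    · intro hvv
      have h1 : Ideal.span {(v.1 : 𝓞 K) * α + (v.2 : 𝓞 K) * β} =
          Ideal.span {(v'.1 : 𝓞 K) * α + (v'.2 : 𝓞 K) * β} := by
        rcases hvv with rfl | rfl
        · rfl
        · rw [Ideal.span_singleton_eq_span_singleton]
          refine ⟨-1, ?_⟩
          simp only [Prod.fst_neg, Prod.snd_neg, Units.val_neg, Units.val_one]
          push_cast
          ring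
      rw [hb v hv, hb v' hv'] at h1
      exact Subtype.ext (mul_right_cancel₀ hI0 h1)

end Pool.Agent.H46.CN
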