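import Pool.Agent.H46.CN.NF

/-!
# The local numbers count the prime divisors of norm `p`
-/

set_option autoImplicit false

open NumberField
open scoped nonZeroDivisors

namespace Pool.Agent.H46.CN

open Pool.Agent.H31.CN

/-- the quotient ideals -/
lemma OB_b (K : Type) [Field K] [NumberField K] (σ : K →+* ℂ) (I : (Ideal (𝓞 K))⁰)
    (α β : 𝓞 K) (Q : QF) (h : OB K σ I α β Q) (v : ℤ × ℤ) (hv : v ≠ 0) :
    ∃ b : (Ideal (𝓞 K))⁰,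
      Ideal.span {(v.1 : 𝓞 K) * α + (v.2 : 𝓞 K) * β} = (b : Ideal (𝓞 K)) * I := by
  have hmem : (v.1 : 𝓞 K) * α + (v.2 : 𝓞 K) * β ∈ (I : Ideal (𝓞 K)) := (h.mem _).2 ⟨v, rfl⟩
  have hdvd : (I : Ideal (𝓞 K)) ∣ Ideal.span {(v.1 : 𝓞 K) * α + (v.2 : 𝓞 K) * β} := by
    rw [Ideal.dvd_span_singleton]
    exact hmem
  obtain ⟨c, hc⟩ := hdvd
  have hc0 : c ≠ 0 := by
    rintro rfl
    rw [mul_zero] at hc
    exact hv (h.inj v (Ideal.span_singleton_eq_bot.1 hc))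
  exact ⟨⟨c, mem_nonZeroDivisors_of_ne_zero hc0⟩, by rw [hc, mul_comm]⟩

/-- representatives of the projective line modulo `p` -/
def Rp (p : ℕ) : Finset (ℤ × ℤ) :=
  insert (1, 0) ((Finset.range p).image (fun j : ℕ => ((j : ℤ), (1 : ℤ))))

lemma mem_Rp (p : ℕ) (w : ℤ × ℤ) :
    w ∈ Rp p ↔ w = (1, 0) ∨ ∃ j : ℕ, j < p ∧ w = ((j : ℤ), 1) := by
  simp only [Rp, Finset.mem_insert, Finset.mem_image, Finset.mem_range]
  constructor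
  · rintro (h | ⟨j, hj, rfl⟩)
    · exact Or.inl h
    · exact Or.inr ⟨j, hj, rfl⟩
  · rintro (h | ⟨j, hj, rfl⟩)
    · exact Or.inl h
    · exact Or.inr ⟨j, hj, rfl⟩

lemma Rp_prim (p : ℕ) (hp : p.Prime) (w : ℤ × ℤ) (hw : w ∈ Rp p) :
    ¬ ((p : ℤ) ∣ w.1 ∧ (p : ℤ) ∣ w.2) := by
  have h1 : ¬ (p : ℤ) ∣ 1 := by
    intro h
    have := Int.natCast_dvd_natCast.1 (by exact_mod_cast h : (p : ℤ) ∣ ((1 : ℕ) : ℤ))
    exact hp.one_lt.ne' (Nat.dvd_one.1 this)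
  rcases (mem_Rp p w).1 hw with rfl | ⟨j, -, rfl⟩
  · exact fun h => h1 h.1
  · exact fun h => h1 h.2

/-- a vector proportional modulo `p` to a representative -/
lemma Rp_comb (p : ℕ) (w v : ℤ × ℤ) (hw : w ∈ Rp p)
    (h : (p : ℤ) ∣ w.1 * v.2 - w.2 * v.1) :
    ∃ (c : ℤ) (u : ℤ × ℤ), v.1 = c * w.1 + p * u.1 ∧ v.2 = c * w.2 + p * u.2 := by
  rcases (mem_Rp p w).1 hw with rfl | ⟨j, -, rfl⟩
  · obtain ⟨k, hk⟩ := h
    refine ⟨v.1, (0, k), by simp, ?_⟩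
    simp only [one_mul, zero_mul, sub_zero] at hk
    rw [hk]
    ring
  · obtain ⟨k, hk⟩ := h
    refine ⟨v.2, (-k, 0), ?_, by simp⟩
    simp only [one_mul] at hk
    linear_combination -hk

/-- every vector is proportional modulo `p` to a representative -/
lemma Rp_ex (p : ℕ) (hp : p.Prime) (w : ℤ × ℤ) (hw : ¬ ((p : ℤ) ∣ w.1 ∧ (p : ℤ) ∣ w.2)) :
    ∃ w₀ ∈ Rp p, ∃ (c : ℤ) (u : ℤ × ℤ), w₀.1 = c * w.1 + p * u.1 ∧ w₀.2 = c * w.2 + p * u.2 := by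
  have hpp : Prime (p : ℤ) := Nat.prime_iff_prime_int.1 hp
  have hp0 : (0 : ℤ) < p := by exact_mod_cast hp.pos
  by_cases h2 : (p : ℤ) ∣ w.2
  · have h1 : ¬ (p : ℤ) ∣ w.1 := fun h => hw ⟨h, h2⟩
    obtain ⟨x, y, hxy⟩ := (hpp.coprime_iff_not_dvd).2 h1
    obtain ⟨k, hk⟩ := h2
    refine ⟨(1, 0), (mem_Rp p _).2 (Or.inl rfl), y, (x, -y * k), ?_, ?_⟩
    · linear_combination -hxy
    · show (0 : ℤ) = y * w.2 + p * (-y * k)
      rw [hk]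
      ring
  · obtain ⟨x, y, hxy⟩ := (hpp.coprime_iff_not_dvd).2 h2
    refine ⟨(((y * w.1) % p).toNat, 1), (mem_Rp p _).2 (Or.inr ⟨_, ?_, rfl⟩), y,
      (-(y * w.1 / p), x), ?_, ?_⟩
    · have h3 := Int.emod_lt_of_pos (y * w.1) hp0
      have h4 := Int.emod_nonneg (y * w.1) hp0.ne'
      omega
    · show (((y * w.1) % p).toNat : ℤ) = y * w.1 + p * (-(y * w.1 / p))
      rw [Int.toNat_of_nonneg (Int.emod_nonneg (y * w.1) hp0.ne')]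
      linear_combination Int.emod_add_mul_ediv (y * w.1) p
    · show (1 : ℤ) = y * w.2 + p * x
      linear_combination -hxy

/-- different representatives are not proportional -/
lemma Rp_inj (p : ℕ) (hp : p.Prime) (w w' : ℤ × ℤ) (hw : w ∈ Rp p) (hw' : w' ∈ Rp p)
    (h : (p : ℤ) ∣ w.1 * w'.2 - w.2 * w'.1) : w = w' := by
  have h1 : ¬ (p : ℤ) ∣ 1 := by
    intro h
    have := Int.natCast_dvd_natCast.1 (by exact_mod_cast h : (p : ℤ) ∣ ((1 : ℕ) : ℤ))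
    exact hp.one_lt.ne' (Nat.dvd_one.1 this)
  rcases (mem_Rp p w).1 hw with rfl | ⟨j, hj, rfl⟩
  · rcases (mem_Rp p w').1 hw' with rfl | ⟨j', hj', rfl⟩
    · rfl
    · exact absurd (by simpa using h) h1
  · rcases (mem_Rp p w').1 hw' with rfl | ⟨j', hj', rfl⟩
    · exact absurd (by simpa using h) h1
    · simp only [one_mul, mul_one] at h
      have h2 : (j : ℤ) - j' = 0 := by
        apply Int.eq_zero_of_abs_lt_dvd h
        rw [abs_lt]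
        constructor <;> omega
      have h3 : (j : ℤ) = j' := by omega
      rw [h3]

/-- the local number counts representatives -/
lemma nul_eq (hHK3 : T_HK3) (p : ℕ) (hp : p.Prime) (Q : QF) (v : ℤ × ℤ) :
    nul p Q v = ((Rp p).filter (fun w => (p : ℤ) ∣ val Q w ∧
      (p : ℤ) ∣ w.1 * v.2 - w.2 * v.1)).card := by
  classical
  rw [← hHK3 p Q v hp, Rp, Finset.filter_insert]
  have hn : ((1 : ℤ), (0 : ℤ)) ∉ ((Finset.range p).image (fun j : ℕ => ((j : ℤ), (1 : ℤ)))).filter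
      (fun w => (p : ℤ) ∣ val Q w ∧ (p : ℤ) ∣ w.1 * v.2 - w.2 * v.1) := by
    simp
  have hc : (((Finset.range p).image (fun j : ℕ => ((j : ℤ), (1 : ℤ)))).filter
      (fun w => (p : ℤ) ∣ val Q w ∧ (p : ℤ) ∣ w.1 * v.2 - w.2 * v.1)).card =
      ((Finset.range p).filter (fun j : ℕ =>
        (p : ℤ) ∣ Q.1 * (j : ℤ) ^ 2 + Q.2.1 * (j : ℤ) + Q.2.2 ∧
          (p : ℤ) ∣ v.1 - j * v.2)).card := by
    rw [Finset.filter_image, Finset.card_image_of_injective]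
    · congr 1
      apply Finset.filter_congr
      intro j _
      simp only [val, one_mul, mul_one, one_pow]
      rw [← dvd_neg (b := v.1 - (j : ℤ) * v.2), neg_sub]
    · intro i j hij
      have h1 : (i : ℤ) = (j : ℤ) := congrArg Prod.fst hij
      exact_mod_cast h1
  have hi : ((p : ℤ) ∣ val Q (1, 0) ∧ (p : ℤ) ∣ ((1 : ℤ), (0 : ℤ)).1 * v.2 -
      ((1 : ℤ), (0 : ℤ)).2 * v.1) ↔ ((p : ℤ) ∣ Q.1 ∧ (p : ℤ) ∣ v.2) := by
    simp [val]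
  by_cases hq : (p : ℤ) ∣ Q.1 ∧ (p : ℤ) ∣ v.2
  · rw [if_pos hq, if_pos (hi.2 hq), Finset.card_insert_of_notMem hn, hc, add_comm]
  · rw [if_neg hq, if_neg (fun h => hq (hi.1 h)), hc, zero_add]

section ideals

variable (K : Type) [Field K] [NumberField K] (σ : K →+* ℂ) (I : (Ideal (𝓞 K))⁰)
    (α β : 𝓞 K) (Q : QF)

lemma mem_p (h : OB K σ I α β Q) (p : ℕ) (w : ℤ × ℤ) :
    (w.1 : 𝓞 K) * α + (w.2 : 𝓞 K) * β ∈ Ideal.span {(p : 𝓞 K)} * (I : Ideal (𝓞 K)) ↔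
      ((p : ℤ) ∣ w.1 ∧ (p : ℤ) ∣ w.2) := by
  rw [Ideal.mem_span_singleton_mul]
  constructor
  · rintro ⟨z, hz, hzw⟩
    obtain ⟨u, rfl⟩ := (h.mem z).1 hz
    have h1 := h.inj ((p : ℤ) * u.1 - w.1, (p : ℤ) * u.2 - w.2) (by
      push_cast
      linear_combination hzw)
    have h2 : (p : ℤ) * u.1 - w.1 = 0 := congrArg Prod.fst h1
    have h3 : (p : ℤ) * u.2 - w.2 = 0 := congrArg Prod.snd h1
    exact ⟨⟨u.1, by linarith⟩, ⟨u.2, by linarith⟩⟩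
  · rintro ⟨⟨x, hx⟩, ⟨y, hy⟩⟩
    refine ⟨(x : 𝓞 K) * α + (y : 𝓞 K) * β, (h.mem _).2 ⟨(x, y), rfl⟩, ?_⟩
    rw [hx, hy]
    push_cast
    ring

/-- the norm of the ideal generated by `p` and the quotient of a representative -/
lemma norm_P (hfin : Module.finrank ℚ K = 2) (h : OB K σ I α β Q) (p : ℕ) (hp : p.Prime)
    (w : ℤ × ℤ) (hw : ¬ ((p : ℤ) ∣ w.1 ∧ (p : ℤ) ∣ w.2)) (hval : (p : ℤ) ∣ val Q w)
    (b : (Ideal (𝓞 K))⁰)
    (hb : Ideal.span {(w.1 : 𝓞 K) * α + (w.2 : 𝓞 K) * β} = (b : Ideal (𝓞 K)) * I) :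
    Ideal.absNorm (Ideal.span {(p : 𝓞 K)} ⊔ (b : Ideal (𝓞 K))) = p := by
  have h1 := OB_quot K σ hfin I b α β Q h w hb
  have h2 : p ∣ Ideal.absNorm (b : Ideal (𝓞 K)) := by
    rw [← h1] at hval
    exact_mod_cast hval
  have h3 : Ideal.absNorm (Ideal.span {(p : 𝓞 K)}) = p ^ 2 := by
    rw [Ideal.absNorm_span_natCast, RingOfIntegers.rank, hfin]
  have h4 : Ideal.absNorm (Ideal.span {(p : 𝓞 K)} ⊔ (b : Ideal (𝓞 K))) ∣ p ^ 2 := by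
    rw [← h3]
    exact Ideal.absNorm_dvd_absNorm_of_le le_sup_left
  obtain ⟨i, hi, hie⟩ := (Nat.dvd_prime_pow hp).1 h4
  interval_cases i
  · exfalso
    rw [pow_zero, Ideal.absNorm_eq_one_iff] at hie
    obtain ⟨P, hP1, hP2, hP3⟩ := Ideal.exists_isMaximal_dvd_of_dvd_absNorm' hp _ h2
    have h5 : (p : 𝓞 K) ∈ P := by
      have h6 : (p : ℤ) ∈ P.under ℤ := by
        rw [hP2]
        exact Ideal.mem_span_singleton_self _
      rw [Ideal.mem_comap] at h6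
      simpa using h6
    have h7 : Ideal.span {(p : 𝓞 K)} ⊔ (b : Ideal (𝓞 K)) ≤ P :=
      sup_le ((Ideal.span_singleton_le_iff_mem P).2 h5) (Ideal.dvd_iff_le.1 hP3)
    rw [hie, top_le_iff] at h7
    exact hP1.ne_top h7
  · rw [hie, pow_one]
  · exfalso
    have h5 : Ideal.span {(p : 𝓞 K)} ⊔ (b : Ideal (𝓞 K)) ∣ Ideal.span {(p : 𝓞 K)} :=
      Ideal.dvd_iff_le.2 le_sup_left
    obtain ⟨C, hC⟩ := h5
    have h6 : Ideal.absNorm C = 1 := by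
      have h7 := congrArg Ideal.absNorm hC
      rw [map_mul, h3, hie] at h7
      have h8 : 0 < p ^ 2 := pow_pos hp.pos 2
      exact (mul_eq_left₀ h8.ne').1 h7.symm
    rw [Ideal.absNorm_eq_one_iff] at h6
    rw [h6, Ideal.mul_top] at hC
    have h8 : (b : Ideal (𝓞 K)) ≤ Ideal.span {(p : 𝓞 K)} := by
      rw [hC]
      exact le_sup_right
    have h9 : (w.1 : 𝓞 K) * α + (w.2 : 𝓞 K) * β ∈
        Ideal.span {(p : 𝓞 K)} * (I : Ideal (𝓞 K)) := by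
      apply Ideal.mul_mono_left h8
      rw [← hb]
      exact Ideal.mem_span_singleton_self _
    exact hw ((mem_p K σ I α β Q h p w).1 h9)

/-- divisibility by the ideal of a representative -/
lemma dvd_P (h : OB K σ I α β Q) (p : ℕ) (hp : p.Prime)
    (w v : ℤ × ℤ) (hw : w ∈ Rp p) (b c : (Ideal (𝓞 K))⁰)
    (hb : Ideal.span {(w.1 : 𝓞 K) * α + (w.2 : 𝓞 K) * β} = (b : Ideal (𝓞 K)) * I)
    (hc : Ideal.span {(v.1 : 𝓞 K) * α + (v.2 : 𝓞 K) * β} = (c : Ideal (𝓞 K)) * I)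
    (hP : Ideal.absNorm (Ideal.span {(p : 𝓞 K)} ⊔ (b : Ideal (𝓞 K))) = p) :
    Ideal.span {(p : 𝓞 K)} ⊔ (b : Ideal (𝓞 K)) ∣ (c : Ideal (𝓞 K)) ↔
      (p : ℤ) ∣ w.1 * v.2 - w.2 * v.1 := by
  have hI0 : (I : Ideal (𝓞 K)) ≠ 0 := nonZeroDivisors.coe_ne_zero I
  have hpp : Prime (p : ℤ) := Nat.prime_iff_prime_int.1 hp
  rw [← mul_dvd_mul_iff_right hI0, ← hc, Ideal.dvd_span_singleton, Ideal.sup_mul, ← hb]
  have hpI : ∀ z ∈ (I : Ideal (𝓞 K)), (p : 𝓞 K) * z ∈ Ideal.span {(p : 𝓞 K)} * (I : Ideal (𝓞 K)) ⊔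
      Ideal.span {(w.1 : 𝓞 K) * α + (w.2 : 𝓞 K) * β} := by
    intro z hz
    exact Ideal.mem_sup_left (Ideal.mem_span_singleton_mul.2 ⟨z, hz, rfl⟩)
  have hg : (w.1 : 𝓞 K) * α + (w.2 : 𝓞 K) * β ∈ Ideal.span {(p : 𝓞 K)} * (I : Ideal (𝓞 K)) ⊔
      Ideal.span {(w.1 : 𝓞 K) * α + (w.2 : 𝓞 K) * β} :=
    Ideal.mem_sup_right (Ideal.mem_span_singleton_self _)
  constructor
  · intro hv
    by_contra hn
    obtain ⟨x, y, hxy⟩ := (hpp.coprime_iff_not_dvd).2 hn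
    have hα : α ∈ (I : Ideal (𝓞 K)) := (h.mem _).2 ⟨(1, 0), by simp⟩
    have hβ : β ∈ (I : Ideal (𝓞 K)) := (h.mem _).2 ⟨(0, 1), by simp⟩
    have hxy' : (x : 𝓞 K) * p + y * ((w.1 : 𝓞 K) * v.2 - w.2 * v.1) = 1 := by
      exact_mod_cast congrArg (Int.cast : ℤ → 𝓞 K) hxy
    have hle : (I : Ideal (𝓞 K)) ≤ Ideal.span {(p : 𝓞 K)} * (I : Ideal (𝓞 K)) ⊔
        Ideal.span {(w.1 : 𝓞 K) * α + (w.2 : 𝓞 K) * β} := by
      have hα' : α ∈ Ideal.span {(p : 𝓞 K)} * (I : Ideal (𝓞 K)) ⊔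
          Ideal.span {(w.1 : 𝓞 K) * α + (w.2 : 𝓞 K) * β} := by
        have e : α = (x : 𝓞 K) * ((p : 𝓞 K) * α) +
            ((y * v.2 : 𝓞 K) * ((w.1 : 𝓞 K) * α + (w.2 : 𝓞 K) * β) -
              (y * w.2 : 𝓞 K) * ((v.1 : 𝓞 K) * α + (v.2 : 𝓞 K) * β)) := by
          linear_combination (-α) * hxy'
        have h1 := Ideal.add_mem _ (Ideal.mul_mem_left _ (x : 𝓞 K) (hpI α hα))
          (Ideal.sub_mem _ (Ideal.mul_mem_left _ (y * v.2 : 𝓞 K) hg)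
            (Ideal.mul_mem_left _ (y * w.2 : 𝓞 K) hv))
        rwa [← e] at h1
      have hβ' : β ∈ Ideal.span {(p : 𝓞 K)} * (I : Ideal (𝓞 K)) ⊔
          Ideal.span {(w.1 : 𝓞 K) * α + (w.2 : 𝓞 K) * β} := by
        have e : β = (x : 𝓞 K) * ((p : 𝓞 K) * β) +
            ((y * w.1 : 𝓞 K) * ((v.1 : 𝓞 K) * α + (v.2 : 𝓞 K) * β) -
              (y * v.1 : 𝓞 K) * ((w.1 : 𝓞 K) * α + (w.2 : 𝓞 K) * β)) := by
          linear_combination (-β) * hxy'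
        have h1 := Ideal.add_mem _ (Ideal.mul_mem_left _ (x : 𝓞 K) (hpI β hβ))
          (Ideal.sub_mem _ (Ideal.mul_mem_left _ (y * w.1 : 𝓞 K) hv)
            (Ideal.mul_mem_left _ (y * v.1 : 𝓞 K) hg))
        rwa [← e] at h1
      intro z hz
      obtain ⟨u, rfl⟩ := (h.mem z).1 hz
      exact Ideal.add_mem _ (Ideal.mul_mem_left _ _ hα') (Ideal.mul_mem_left _ _ hβ')
    rw [hb, ← Ideal.sup_mul] at hle
    have h2 : Ideal.span {(p : 𝓞 K)} ⊔ (b : Ideal (𝓞 K)) ∣ 1 := by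
      rw [← mul_dvd_mul_iff_right hI0, one_mul]
      exact Ideal.dvd_iff_le.2 hle
    have h3 : Ideal.span {(p : 𝓞 K)} ⊔ (b : Ideal (𝓞 K)) = ⊤ := by
      rw [← Ideal.isUnit_iff]
      exact isUnit_of_dvd_one h2
    rw [h3, Ideal.absNorm_top] at hP
    exact hp.one_lt.ne hP
  · intro hd
    obtain ⟨c', u, h1, h2⟩ := Rp_comb p w v hw hd
    have e : (v.1 : 𝓞 K) * α + (v.2 : 𝓞 K) * β =
        (p : 𝓞 K) * ((u.1 : 𝓞 K) * α + (u.2 : 𝓞 K) * β) +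
          (c' : 𝓞 K) * ((w.1 : 𝓞 K) * α + (w.2 : 𝓞 K) * β) := by
      rw [h1, h2]
      push_cast
      ring
    rw [e]
    exact Ideal.add_mem _ (hpI _ ((h.mem _).2 ⟨u, rfl⟩)) (Ideal.mul_mem_left _ _ hg)

/-- every ideal of norm `p` comes from a representative -/
lemma ex_P (hfin : Module.finrank ℚ K = 2) (h : OB K σ I α β Q) (p : ℕ) (hp : p.Prime)
    (P : Ideal (𝓞 K)) (hP : Ideal.absNorm P = p) :
    ∃ w ∈ Rp p, (p : ℤ) ∣ val Q w ∧ ∀ b : (Ideal (𝓞 K))⁰,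
      Ideal.span {(w.1 : 𝓞 K) * α + (w.2 : 𝓞 K) * β} = (b : Ideal (𝓞 K)) * I →
        Ideal.span {(p : 𝓞 K)} ⊔ (b : Ideal (𝓞 K)) = P := by
  have hI0 : (I : Ideal (𝓞 K)) ≠ 0 := nonZeroDivisors.coe_ne_zero I
  have h3 : Ideal.absNorm (Ideal.span {(p : 𝓞 K)}) = p ^ 2 := by
    rw [Ideal.absNorm_span_natCast, RingOfIntegers.rank, hfin]
  have hpP : Ideal.span {(p : 𝓞 K)} ≤ P := by
    rw [Ideal.span_singleton_le_iff_mem]
    have := Ideal.absNorm_mem P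
    rwa [hP] at this
  have hex : ∃ w : ℤ × ℤ, (w.1 : 𝓞 K) * α + (w.2 : 𝓞 K) * β ∈ P * (I : Ideal (𝓞 K)) ∧
      ¬ ((p : ℤ) ∣ w.1 ∧ (p : ℤ) ∣ w.2) := by
    by_contra hcon
    push Not at hcon
    have h4 : P * (I : Ideal (𝓞 K)) ≤ Ideal.span {(p : 𝓞 K)} * (I : Ideal (𝓞 K)) := by
      intro z hz
      have hzI : z ∈ (I : Ideal (𝓞 K)) := (Ideal.mul_le_right : P * (I : Ideal (𝓞 K)) ≤ I) hz
      obtain ⟨w, rfl⟩ := (h.mem z).1 hzI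
      refine (mem_p K σ I α β Q h p w).2 ?_
      by_contra hcc
      exact hcc (hcon w hz)
    have h5 : Ideal.span {(p : 𝓞 K)} ∣ P := by
      rw [← mul_dvd_mul_iff_right hI0]
      exact Ideal.dvd_iff_le.2 h4
    have h6 : P = Ideal.span {(p : 𝓞 K)} := le_antisymm (Ideal.dvd_iff_le.1 h5) hpP
    rw [h6, h3] at hP
    have := hp.one_lt
    nlinarith
  obtain ⟨w, hw, hwp⟩ := hex
  obtain ⟨w₀, hw₀, c, u, h1, h2⟩ := Rp_ex p hp w hwp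
  have hmem : (w₀.1 : 𝓞 K) * α + (w₀.2 : 𝓞 K) * β ∈ P * (I : Ideal (𝓞 K)) := by
    have e : (w₀.1 : 𝓞 K) * α + (w₀.2 : 𝓞 K) * β =
        (c : 𝓞 K) * ((w.1 : 𝓞 K) * α + (w.2 : 𝓞 K) * β) +
        (p : 𝓞 K) * ((u.1 : 𝓞 K) * α + (u.2 : 𝓞 K) * β) := by
      rw [h1, h2]
      push_cast
      ring
    rw [e]
    refine Ideal.add_mem _ (Ideal.mul_mem_left _ _ hw) (Ideal.mul_mem_mul ?_ ?_)
    · exact hpP (Ideal.mem_span_singleton_self _)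
    · exact (h.mem _).2 ⟨u, rfl⟩
  have hw₀0 : w₀ ≠ 0 := by
    rintro rfl
    exact Rp_prim p hp _ hw₀ (by simp)
  have hall : ∀ b : (Ideal (𝓞 K))⁰,
      Ideal.span {(w₀.1 : 𝓞 K) * α + (w₀.2 : 𝓞 K) * β} = (b : Ideal (𝓞 K)) * I →
        (b : Ideal (𝓞 K)) ≤ P := by
    intro b hb
    have h4 : P ∣ (b : Ideal (𝓞 K)) := by
      rw [← mul_dvd_mul_iff_right hI0, ← hb, Ideal.dvd_span_singleton]
      exact hmem
    exact Ideal.dvd_iff_le.1 h4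
  have hval : (p : ℤ) ∣ val Q w₀ := by
    obtain ⟨b, hb⟩ := OB_b K σ I α β Q h w₀ hw₀0
    rw [← OB_quot K σ hfin I b α β Q h w₀ hb]
    have h4 := Ideal.absNorm_dvd_absNorm_of_le (hall b hb)
    rw [hP] at h4
    exact_mod_cast h4
  refine ⟨w₀, hw₀, hval, fun b hb => ?_⟩
  have h4 : Ideal.span {(p : 𝓞 K)} ⊔ (b : Ideal (𝓞 K)) ≤ P := sup_le hpP (hall b hb)
  have h5 := norm_P K σ I α β Q hfin h p hp w₀ (Rp_prim p hp w₀ hw₀) hval b hb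
  obtain ⟨C, hC⟩ := Ideal.dvd_iff_le.2 h4
  have h6 : Ideal.absNorm C = 1 := by
    have h7 := congrArg Ideal.absNorm hC
    rw [map_mul, h5, hP] at h7
    exact (mul_eq_left₀ hp.pos.ne').1 h7.symm
  rw [Ideal.absNorm_eq_one_iff] at h6
  rw [hC, h6, Ideal.mul_top]

end ideals

/-- (OB4) the local numbers count the prime divisors of norm `p`. -/
theorem pf_OB4 (hHK3 : T_HK3) : T_OB4 := by
  classical
  intro D K _ _ σ hD hD4 hfin hdis I b α β Q v p h hv hp hb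
  rw [nul_eq hHK3 p hp Q v]
  set S := (Rp p).filter (fun w => (p : ℤ) ∣ val Q w ∧
      (p : ℤ) ∣ w.1 * v.2 - w.2 * v.1) with hS
  have hne : ∀ w ∈ Rp p, w ≠ 0 := by
    rintro w hw rfl
    exact Rp_prim p hp _ hw (by simp)
  have hex : ∀ w : ℤ × ℤ, ∃ c : (Ideal (𝓞 K))⁰, w ≠ 0 →
      Ideal.span {(w.1 : 𝓞 K) * α + (w.2 : 𝓞 K) * β} = (c : Ideal (𝓞 K)) * I := by
    intro w
    by_cases hw : w = 0
    · exact ⟨1, fun h => absurd hw h⟩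
    · obtain ⟨c, hc⟩ := OB_b K σ I α β Q h w hw
      exact ⟨c, fun _ => hc⟩
  choose c hc using hex
  have hmemS : ∀ w : S, (w : ℤ × ℤ) ∈ Rp p ∧ (p : ℤ) ∣ val Q w ∧
      (p : ℤ) ∣ (w : ℤ × ℤ).1 * v.2 - (w : ℤ × ℤ).2 * v.1 := by
    intro w
    exact Finset.mem_filter.1 w.2
  have hnorm : ∀ w : S, Ideal.absNorm (Ideal.span {(p : 𝓞 K)} ⊔ (c w : Ideal (𝓞 K))) = p := by
    intro w
    obtain ⟨h1, h2, h3⟩ := hmemS w
    exact norm_P K σ I α β Q hfin h p hp w (Rp_prim p hp _ h1) h2 _ (hc w (hne _ h1))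
  let f : S → {P : Ideal (𝓞 K) // Ideal.absNorm P = p ∧ P ∣ (b : Ideal (𝓞 K))} := fun w =>
    ⟨Ideal.span {(p : 𝓞 K)} ⊔ (c w : Ideal (𝓞 K)), hnorm w,
      (dvd_P K σ I α β Q h p hp w v (hmemS w).1 (c w) b (hc w (hne _ (hmemS w).1)) hb
        (hnorm w)).2 (hmemS w).2.2⟩
  rw [← Fintype.card_coe, ← Nat.card_eq_fintype_card]
  apply Nat.card_eq_of_bijective f
  constructor
  · intro w w' hww
    have h1 : Ideal.span {(p : 𝓞 K)} ⊔ (c w : Ideal (𝓞 K)) =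
        Ideal.span {(p : 𝓞 K)} ⊔ (c w' : Ideal (𝓞 K)) := congrArg Subtype.val hww
    have h2 : Ideal.span {(p : 𝓞 K)} ⊔ (c w : Ideal (𝓞 K)) ∣ (c w' : Ideal (𝓞 K)) := by
      rw [h1]
      exact Ideal.dvd_iff_le.2 le_sup_right
    have h3 := (dvd_P K σ I α β Q h p hp w w' (hmemS w).1 (c w) (c w')
      (hc w (hne _ (hmemS w).1)) (hc w' (hne _ (hmemS w').1)) (hnorm w)).1 h2
    exact Subtype.ext (Rp_inj p hp _ _ (hmemS w).1 (hmemS w').1 h3)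
  · rintro ⟨P, hP1, hP2⟩
    obtain ⟨w, hw1, hw2, hw3⟩ := ex_P K σ I α β Q hfin h p hp P hP1
    have h4 := hw3 (c w) (hc w (hne w hw1))
    have h5 : (p : ℤ) ∣ w.1 * v.2 - w.2 * v.1 := by
      apply (dvd_P K σ I α β Q h p hp w v hw1 (c w) b (hc w (hne w hw1)) hb (by rw [h4, hP1])).1
      rw [h4]
      exact hP2
    refine ⟨⟨w, ?_⟩, ?_⟩
    · rw [hS, Finset.mem_filter]
      exact ⟨hw1, hw2, h5⟩
    · exact Subtype.ext h4

end Pool.Agent.H46.CN
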